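import Mathlib
import Pool.Agent.R194.XD.Extra

namespace Pool.Agent.Results.MP_680f50_nt.ExtensionDegree

open Pool.Agent.R194.XD

/-- The least degree `N(M, Λ)` of a polynomial extending a multiplicity matrix. -/
theorem result (K : Type*) [Field K] [CharZero K] (m n : ℕ) :
    (∀ M : Fin m → Fin (n + 1) → ℕ, IsMultMatrix M → ∀ Λ : Fin m → K, Function.Injective Λ →
      ∃ N, N ≤ max n (m * n) ∧ IsLeast (extDegrees M Λ) N ∧ IsLeast (rankDegrees M Λ) N) ∧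
    (∃ Q : MvPolynomial (Fin m) K, Q ≠ 0 ∧ ∀ Λ : Fin m → K, Function.Injective Λ →
      MvPolynomial.eval Λ Q ≠ 0 → ∀ M : Fin m → Fin (n + 1) → ℕ, IsMultMatrix M →
        IsLeast (extDegrees M Λ) (starDegree M)) ∧
    (m ≤ 2 → ∀ M : Fin m → Fin (n + 1) → ℕ, IsMultMatrix M → ∀ Λ : Fin m → K,
      Function.Injective Λ → IsLeast (extDegrees M Λ) (starDegree M)) ∧
    (3 ≤ m → ∃ M : Fin m → Fin (2 + 1) → ℕ, IsMultMatrix M ∧ ∃ Λ : Fin m → K,
      Function.Injective Λ ∧ ¬ IsLeast (extDegrees M Λ) (starDegree M)) := by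
  refine ⟨fun M hM Λ hΛ => span_isLeast' M hM Λ hΛ, ?_,
    fun hm M hM Λ hΛ => small_star hm M hM Λ hΛ, fun hm => depends m hm⟩
  obtain ⟨Q, hQ, h⟩ := generic_star (K := K) m n
  exact ⟨Q, hQ, fun Λ _ hΛ M hM => h Λ hΛ M hM⟩

end Pool.Agent.Results.MP_680f50_nt.ExtensionDegree
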